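import Pool.Agent.Y754.PN.Poly

/-!
# Two-dimensional spaces: tangent polynomials of even degree are divisible by a linear form
-/

set_option autoImplicit false

namespace Y754.PN

variable {X : Type} [NormedAddCommGroup X] [NormedSpace ℝ X]

lemma Tan.app {k : ℕ} {P : X → X} (hP : HV k P) (ht : Tan P) {y : X} (hy : y ≠ 0)
    {g : X →L[ℝ] ℝ} (hg : ‖g‖ = 1) (hgy : g y = ‖y‖) : g (P y) = 0 := by
  have hn : 0 < ‖y‖ := norm_pos_iff.2 hy
  have h1 : ‖‖y‖⁻¹ • y‖ = 1 := by
    rw [norm_smul, norm_inv, norm_norm, inv_mul_cancel₀ hn.ne']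
  have h2 : g (‖y‖⁻¹ • y) = 1 := by
    rw [map_smul, hgy, smul_eq_mul, inv_mul_cancel₀ hn.ne']
  have h3 := ht _ g h1 hg h2
  rw [hP.hom, map_smul, smul_eq_mul] at h3
  exact (mul_eq_zero.1 h3).resolve_left (pow_ne_zero _ (inv_ne_zero hn.ne'))

/-- division by a linear form keeps tangency in dimension two -/
theorem Tan.div {k l : ℕ} {P Q : X → X} (hP : HV k P) (hQ : HV l Q) (ht : Tan P)
    {x0 y0 : X} {a ℓ : X →L[ℝ] ℝ} (hdec : ∀ x, x = a x • x0 + ℓ x • y0) (hℓ : ℓ y0 = 1)
    (hPQ : ∀ x, P x = ℓ x • Q x) : Tan Q := by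
  have key : ∀ (y : X) (g : X →L[ℝ] ℝ), ℓ y ≠ 0 → ‖g‖ = 1 → g y = ‖y‖ → g (Q y) = 0 := by
    intro y g hy hg hgy
    have hy0 : y ≠ 0 := by
      rintro rfl
      exact hy (map_zero _)
    have h1 := ht.app hP hy0 hg hgy
    rw [hPQ, map_smul, smul_eq_mul] at h1
    exact (mul_eq_zero.1 h1).resolve_left hy
  have hsup : ∀ y : X, ℓ y ≠ 0 → ∃ g : X →L[ℝ] ℝ, ‖g‖ = 1 ∧ g y = ‖y‖ := by
    intro y hy
    have hy0 : y ≠ 0 := by
      rintro rfl
      exact hy (map_zero _)
    obtain ⟨g, h1, h2⟩ := exists_dual_vector ℝ y (norm_ne_zero_iff.2 hy0)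
    exact ⟨g, h1, h2⟩
  intro x f hx hf hfx
  by_cases hlx : ℓ x ≠ 0
  · exact key x f hlx hf (by rw [hfx, hx])
  push Not at hlx
  set u : X := Q x with hu
  have hcont : ∀ v : X, Filter.Tendsto (fun t : ℝ => ‖u - Q (x + t • v)‖) (nhds 0) (nhds 0) := by
    intro v
    have h1 : Continuous fun t : ℝ => ‖u - Q (x + t • v)‖ :=
      (continuous_const.sub (hQ.continuous.comp (by fun_prop))).norm
    have h2 := h1.tendsto 0
    simpa [hu] using h2
  have hbd : ∀ (v : X) (t : ℝ) (g : X →L[ℝ] ℝ), ℓ (x + t • v) ≠ 0 → ‖g‖ = 1 →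
      g (x + t • v) = ‖x + t • v‖ → |g u| ≤ ‖u - Q (x + t • v)‖ := by
    intro v t g h1 h2 h3
    have h4 := key _ g h1 h2 h3
    have h5 : g u = g (u - Q (x + t • v)) := by rw [map_sub, h4, sub_zero]
    rw [h5]
    have h6 := g.le_opNorm (u - Q (x + t • v))
    rw [h2, one_mul] at h6
    exact h6
  by_cases hlu : ℓ u ≠ 0
  · -- the direction `u` leaves the line
    have hl : ∀ t : ℝ, t ≠ 0 → ℓ (x + t • u) ≠ 0 := by
      intro t ht0
      rw [map_add, map_smul, hlx, zero_add, smul_eq_mul]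
      exact mul_ne_zero ht0 hlu
    have hmono : ∀ t : ℝ, t ≠ 0 → ∃ g : X →L[ℝ] ℝ, |g u| ≤ ‖u - Q (x + t • u)‖ ∧
        t * f u ≤ t * g u := by
      intro t ht0
      obtain ⟨g, hg, hgy⟩ := hsup _ (hl t ht0)
      refine ⟨g, hbd u t g (hl t ht0) hg hgy, ?_⟩
      have h1 := f.le_opNorm (x + t • u)
      have h2 := g.le_opNorm x
      rw [hf, one_mul, Real.norm_eq_abs] at h1
      rw [hg, one_mul, hx, Real.norm_eq_abs] at h2
      have h3 := (le_abs_self _).trans h1
      have h4 := (le_abs_self _).trans h2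
      rw [← hgy] at h3
      rw [map_add, map_smul, map_add, map_smul, hfx, smul_eq_mul, smul_eq_mul] at h3
      linarith
    have hle : f u ≤ 0 := by
      have hT : Filter.Tendsto (fun t : ℝ => ‖u - Q (x + t • u)‖) (nhdsWithin 0 (Set.Ioi 0))
          (nhds 0) := (hcont u).mono_left nhdsWithin_le_nhds
      apply ge_of_tendsto hT
      filter_upwards [self_mem_nhdsWithin] with t ht0
      have ht1 : (0 : ℝ) < t := ht0
      obtain ⟨g, h1, h2⟩ := hmono t ht1.ne'
      have h3 := le_of_mul_le_mul_left h2 ht1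
      exact h3.trans ((le_abs_self _).trans h1)
    have hge : -f u ≤ 0 := by
      have hT : Filter.Tendsto (fun t : ℝ => ‖u - Q (x + t • u)‖) (nhdsWithin 0 (Set.Iio 0))
          (nhds 0) := (hcont u).mono_left nhdsWithin_le_nhds
      apply ge_of_tendsto hT
      filter_upwards [self_mem_nhdsWithin] with t ht0
      have ht1 : t < (0 : ℝ) := ht0
      obtain ⟨g, h1, h2⟩ := hmono t ht1.ne
      have h3 : g u ≤ f u := le_of_mul_le_mul_left (a := -t) (by linarith) (by linarith)
      have h4 := neg_le_of_abs_le h1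
      linarith
    linarith
  · -- `u` is a multiple of `x`
    push Not at hlu
    have hax : a x ≠ 0 := by
      intro h0
      have h1 := hdec x
      rw [h0, hlx, zero_smul, zero_smul, add_zero] at h1
      rw [h1, norm_zero] at hx
      exact zero_ne_one hx
    obtain ⟨c, hc⟩ : ∃ c : ℝ, u = c • x := by
      refine ⟨a u / a x, ?_⟩
      have h1 := hdec x
      have h2 := hdec u
      rw [hlx, zero_smul, add_zero] at h1
      rw [hlu, zero_smul, add_zero] at h2
      calc u = a u • x0 := h2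
        _ = (a u / a x) • (a x • x0) := by rw [smul_smul, div_mul_cancel₀ _ hax]
        _ = (a u / a x) • x := by rw [← h1]
    have hc0 : |c| ≤ 0 := by
      have hlim : Filter.Tendsto (fun t : ℝ => ‖u - Q (x + t • y0)‖ + 2 * |c| * ‖y0‖ * |t|)
          (nhdsWithin 0 (Set.Ioi 0)) (nhds 0) := by
        have h1 := (hcont y0).mono_left (nhdsWithin_le_nhds (s := Set.Ioi (0 : ℝ)))
        have h2 : Filter.Tendsto (fun t : ℝ => 2 * |c| * ‖y0‖ * |t|) (nhdsWithin 0 (Set.Ioi 0))
            (nhds 0) := by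
          have h3 : Continuous fun t : ℝ => 2 * |c| * ‖y0‖ * |t| := by fun_prop
          have h4 := (h3.tendsto 0).mono_left (nhdsWithin_le_nhds (s := Set.Ioi (0 : ℝ)))
          simpa using h4
        simpa using h1.add h2
      apply ge_of_tendsto hlim
      filter_upwards [self_mem_nhdsWithin] with t ht0
      have ht1 : (0 : ℝ) < t := ht0
      have hl : ℓ (x + t • y0) ≠ 0 := by
        rw [map_add, map_smul, hlx, zero_add, smul_eq_mul, hℓ, mul_one]
        exact ht1.ne'
      obtain ⟨g, hg, hgy⟩ := hsup _ hl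
      have h1 := hbd y0 t g hl hg hgy
      rw [hc, map_smul, smul_eq_mul, abs_mul] at h1
      have h2 : 1 - 2 * ‖y0‖ * |t| ≤ |g x| := by
        have h3 : g x = ‖x + t • y0‖ - t * g y0 := by
          rw [← hgy, map_add, map_smul, smul_eq_mul]
          ring
        have h4 : 1 - |t| * ‖y0‖ ≤ ‖x + t • y0‖ := by
          have := norm_sub_le (x + t • y0) (t • y0)
          rw [add_sub_cancel_right, hx, norm_smul, Real.norm_eq_abs] at this
          linarith
        have h5 : t * g y0 ≤ |t| * ‖y0‖ := by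
          have h6 := g.le_opNorm y0
          rw [hg, one_mul, Real.norm_eq_abs] at h6
          calc t * g y0 ≤ |t * g y0| := le_abs_self _
            _ = |t| * |g y0| := abs_mul _ _
            _ ≤ |t| * ‖y0‖ := by gcongr
        have h6 : 1 - 2 * ‖y0‖ * |t| ≤ g x := by
          rw [h3]
          linarith
        exact h6.trans (le_abs_self _)
      have h3 := mul_le_mul_of_nonneg_left h2 (abs_nonneg c)
      rw [← hc] at h1
      linarith
    have hc1 : c = 0 := abs_nonpos_iff.1 hc0
    rw [hc, hc1, zero_smul, map_zero]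

/-- factorisation -/
theorem factor {k : ℕ} {P : X → X} (hP : HV (k + 1) P) {x0 y0 : X} {a ℓ : X →L[ℝ] ℝ}
    (hdec : ∀ x, x = a x • x0 + ℓ x • y0) (h0 : P x0 = 0) :
    ∃ Q : X → X, HV k Q ∧ ∀ x, P x = ℓ x • Q x := by
  classical
  obtain ⟨A, hA⟩ := hP
  let g : Fin 2 → (X →L[ℝ] ℝ) := ![a, ℓ]
  let u : Fin 2 → X := ![x0, y0]
  have hsum : ∀ x, x = ∑ j, g j x • u j := by
    intro x
    rw [Fin.sum_univ_two]
    exact hdec x
  have hex : ∀ w : Fin (k + 1) → Fin 2, w ≠ 0 → ∃ i, w i = 1 := by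
    intro w hw
    by_contra hcon
    push Not at hcon
    apply hw
    funext i
    have h1 := hcon i
    have h2 : ∀ z : Fin 2, z ≠ 1 → z = 0 := by decide
    exact h2 _ h1
  have hpos : ∀ w : Fin (k + 1) → Fin 2, ∃ i, w ≠ 0 → w i = 1 := by
    intro w
    by_cases hw : w = 0
    · exact ⟨0, fun h => absurd hw h⟩
    · obtain ⟨i, hi⟩ := hex w hw
      exact ⟨i, fun _ => hi⟩
  choose pos hpos using hpos
  refine ⟨fun x => ∑ w ∈ (Finset.univ.filter fun w : Fin (k + 1) → Fin 2 => w ≠ 0),
    (∏ i : Fin k, g (w ((pos w).succAbove i)) x) • A fun i => u (w i), ?_, fun x => ?_⟩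
  · apply HV.sum _ (fun (w : Fin (k + 1) → Fin 2) (x : X) =>
      ∏ i : Fin k, g (w ((pos w).succAbove i)) x)
      (fun w : Fin (k + 1) → Fin 2 => A fun i => u (w i))
    intro w _
    exact ⟨mon fun i => g (w ((pos w).succAbove i)), fun x => mon_apply _ x⟩
  · have h1 : P x = ∑ w : Fin (k + 1) → Fin 2, (∏ i, g (w i) x) • A fun i => u (w i) := by
      rw [← hA]
      have h2 : (A fun _ => x) = A fun _ => ∑ j, g j x • u j := by
        rw [← hsum]
      rw [h2, ContinuousMultilinearMap.map_sum]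
      refine Finset.sum_congr rfl fun w _ => ?_
      exact A.map_smul_univ (fun i => g (w i) x) (fun i => u (w i))
    rw [h1, ← Finset.sum_filter_add_sum_filter_not Finset.univ
      (fun w : Fin (k + 1) → Fin 2 => w ≠ 0)]
    have h3 : ∑ w ∈ (Finset.univ.filter fun w : Fin (k + 1) → Fin 2 => ¬ w ≠ 0),
        (∏ i, g (w i) x) • (A fun i => u (w i)) = 0 := by
      apply Finset.sum_eq_zero
      intro w hw
      rw [Finset.mem_filter, not_not] at hw
      have h4 : (A fun i => u (w i)) = P x0 := by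
        rw [← hA, hw.2]
        rfl
      rw [h4, h0, smul_zero]
    rw [h3, add_zero, Finset.smul_sum]
    refine Finset.sum_congr rfl fun w hw => ?_
    rw [Finset.mem_filter] at hw
    rw [smul_smul, Fin.prod_univ_succAbove _ (pos w), hpos w hw.2]
    rfl

/-- coordinates in the plane adapted to a vector -/
lemma coords (h2 : Module.finrank ℝ X = 2) {x0 : X} (hx0 : x0 ≠ 0) :
    ∃ (y0 : X) (a ℓ : X →L[ℝ] ℝ), (∀ x, x = a x • x0 + ℓ x • y0) ∧ ℓ y0 = 1 := by
  have hfd : FiniteDimensional ℝ X := Module.finite_of_finrank_pos (by omega)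
  let b := Module.finBasisOfFinrankEq ℝ X h2
  let c : Fin 2 → (X →L[ℝ] ℝ) := fun i => LinearMap.toContinuousLinearMap (b.coord i)
  have hb : ∀ x, x = c 0 x • b 0 + c 1 x • b 1 := by
    intro x
    conv_lhs => rw [← b.sum_repr x]
    rw [Fin.sum_univ_two]
    rfl
  have hcb : ∀ i j, c i (b j) = if j = i then 1 else 0 := by
    intro i j
    change b.coord i (b j) = _
    rw [Module.Basis.coord_apply, Module.Basis.repr_self, Finsupp.single_apply]
  have hne : c 0 x0 ≠ 0 ∨ c 1 x0 ≠ 0 := by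
    by_contra hcon
    push Not at hcon
    apply hx0
    rw [hb x0, hcon.1, hcon.2, zero_smul, zero_smul, add_zero]
  have h10 : (1 : Fin 2) ≠ 0 := by decide
  have h01 : (0 : Fin 2) ≠ 1 := by decide
  rcases hne with h | h
  · refine ⟨b 1, (c 0 x0)⁻¹ • c 0, c 1 - (c 1 x0 / c 0 x0) • c 0, fun x => ?_, ?_⟩
    · have h3 : ((c 0 x0)⁻¹ • c 0) x • x0 = c 0 x • b 0 + (c 1 x0 / c 0 x0 * c 0 x) • b 1 := by
        rw [smul_apply, smul_eq_mul]
        have h4 := hb x0
        generalize c 0 x0 = p at h h4 ⊢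
        generalize c 1 x0 = r at h4 ⊢
        rw [h4, smul_add, smul_smul, smul_smul]
        congr 2
        · field_simp
        · field_simp
      rw [h3]
      conv_lhs => rw [hb x]
      rw [sub_apply, smul_apply, smul_eq_mul, sub_smul]
      abel
    · rw [sub_apply, smul_apply, hcb, hcb, if_pos rfl, if_neg h10]
      simp
  · refine ⟨b 0, (c 1 x0)⁻¹ • c 1, c 0 - (c 0 x0 / c 1 x0) • c 1, fun x => ?_, ?_⟩
    · have h3 : ((c 1 x0)⁻¹ • c 1) x • x0 = (c 0 x0 / c 1 x0 * c 1 x) • b 0 + c 1 x • b 1 := by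
        rw [smul_apply, smul_eq_mul]
        have h4 := hb x0
        generalize c 1 x0 = p at h h4 ⊢
        generalize c 0 x0 = r at h4 ⊢
        rw [h4, smul_add, smul_smul, smul_smul]
        congr 2
        · field_simp
        · field_simp
      rw [h3]
      conv_lhs => rw [hb x]
      rw [sub_apply, smul_apply, smul_eq_mul, sub_smul]
      abel
    · rw [sub_apply, smul_apply, hcb, hcb, if_pos rfl, if_neg h01]
      simp

/-- a tangent polynomial of even degree has a zero -/
lemma exists_zero (h2 : Module.finrank ℝ X = 2) {k : ℕ} (hk : Even k) {P : X → X}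
    (hP : HV k P) (ht : Tan P) : ∃ x, x ≠ 0 ∧ P x = 0 := by
  by_contra hcon
  push Not at hcon
  have hfd : FiniteDimensional ℝ X := Module.finite_of_finrank_pos (by omega)
  have hnt : Nontrivial X := Module.nontrivial_of_finrank_pos (R := ℝ) (by omega)
  obtain ⟨e, he⟩ := exists_ne (0 : X)
  obtain ⟨y0, a, ℓ, hdec, -⟩ := coords h2 he
  let h : X → ℝ := fun x => a x * ℓ (P x) - ℓ x * a (P x)
  have hcont : Continuous h := by
    have := hP.continuous
    fun_prop
  have hne : ∀ x, x ≠ 0 → h x ≠ 0 := by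
    intro x hx h0
    -- then `P x` is a multiple of `x`
    obtain ⟨c, hc⟩ : ∃ c : ℝ, P x = c • x := by
      by_cases hax : a x = 0
      · have hlx : ℓ x ≠ 0 := by
          intro hlx
          apply hx
          rw [hdec x, hax, hlx, zero_smul, zero_smul, add_zero]
        have hap : a (P x) = 0 := by
          simp only [h, hax, zero_mul, zero_sub, neg_eq_zero, mul_eq_zero] at h0
          exact h0.resolve_left hlx
        refine ⟨ℓ (P x) / ℓ x, ?_⟩
        have h1 := hdec (P x)
        have h2 := hdec x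
        rw [hap, zero_smul, zero_add] at h1
        rw [hax, zero_smul, zero_add] at h2
        calc P x = ℓ (P x) • y0 := h1
          _ = (ℓ (P x) / ℓ x) • (ℓ x • y0) := by rw [smul_smul, div_mul_cancel₀ _ hlx]
          _ = (ℓ (P x) / ℓ x) • x := by rw [← h2]
      · refine ⟨a (P x) / a x, ?_⟩
        have hlp : ℓ (P x) = a (P x) / a x * ℓ x := by
          simp only [h] at h0
          field_simp
          linarith
        have h1 := hdec (P x)
        rw [hlp] at h1
        calc P x = a (P x) • e + (a (P x) / a x * ℓ x) • y0 := h1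
          _ = (a (P x) / a x) • (a x • e + ℓ x • y0) := by
              rw [smul_add, smul_smul, smul_smul, div_mul_cancel₀ _ hax]
          _ = (a (P x) / a x) • x := by rw [← hdec x]
    obtain ⟨g, hg, hgx⟩ := exists_dual_vector ℝ x (norm_ne_zero_iff.2 hx)
    have hgx' : g x = ‖x‖ := hgx
    have h1 := ht.app hP hx hg hgx'
    rw [hc, map_smul, hgx', smul_eq_mul] at h1
    have hc0 : c = 0 := (mul_eq_zero.1 h1).resolve_right (norm_ne_zero_iff.2 hx)
    apply hcon x hx
    rw [hc, hc0, zero_smul]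
  have hodd : ∀ x, h (-x) = -h x := by
    intro x
    have h1 : P (-x) = P x := by
      have := hP.hom (-1) x
      rw [neg_one_smul, hk.neg_one_pow, one_smul] at this
      exact this
    simp only [h, h1, map_neg]
    ring
  have hrank : 1 < Module.rank ℝ X := by
    rw [← Module.finrank_eq_rank, h2]
    norm_num
  have hconn := (isConnected_compl_singleton_of_one_lt_rank hrank (0 : X)).isPreconnected
  have hemem : e ∈ ({0}ᶜ : Set X) := he
  have hnmem : -e ∈ ({0}ᶜ : Set X) := neg_ne_zero.2 he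
  have hzero : (0 : ℝ) ∈ h '' {0}ᶜ := by
    rcases le_total (h e) 0 with h1 | h1
    · apply hconn.intermediate_value hemem hnmem hcont.continuousOn
      exact ⟨h1, by rw [hodd]; linarith⟩
    · apply hconn.intermediate_value hnmem hemem hcont.continuousOn
      exact ⟨by rw [hodd]; linarith, h1⟩
  obtain ⟨x, hx, hx0⟩ := hzero
  exact hne x hx hx0

/-- in dimension two the index of even order vanishes only with the preceding one -/
theorem two_even (h2 : Module.finrank ℝ X = 2) {k : ℕ} (hk : Even (k + 1))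
    (h : pidx (k + 1) X = 0) : pidx k X = 0 := by
  have hfd : FiniteDimensional ℝ X := Module.finite_of_finrank_pos (by omega)
  have hnt : Nontrivial X := Module.nontrivial_of_finrank_pos (R := ℝ) (by omega)
  obtain ⟨P, hP, ht, x1, hx1⟩ : ∃ P : X → X, HV (k + 1) P ∧ Tan P ∧ ∃ x, P x ≠ 0 := by
    by_contra hcon
    push Not at hcon
    exact (idx_pos hcon).ne' h
  obtain ⟨x0, hx0, hPx0⟩ := exists_zero h2 hk hP ht
  obtain ⟨y0, a, ℓ, hdec, hℓ⟩ := coords h2 hx0
  obtain ⟨Q, hQ, hPQ⟩ := factor hP hdec hPx0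
  refine idx_zero hQ (Tan.div hP hQ ht hdec hℓ hPQ) ⟨x1, ?_⟩
  intro h0
  apply hx1
  rw [hPQ, h0, smul_zero]

/-- in dimension one all indices are positive -/
theorem one_pos' (h1 : Module.finrank ℝ X = 1) (k : ℕ) : 0 < pidx k X := by
  have hfd : FiniteDimensional ℝ X := Module.finite_of_finrank_pos (by omega)
  have hnt : Nontrivial X := Module.nontrivial_of_finrank_pos (R := ℝ) (by omega)
  apply idx_pos
  intro P hP ht
  have hx : ∀ x, x ≠ 0 → P x = 0 := by
    intro x hx
    obtain ⟨g, hg, hgx⟩ := exists_dual_vector ℝ x (norm_ne_zero_iff.2 hx)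
    have hgx' : g x = ‖x‖ := hgx
    obtain ⟨c, hc⟩ := (finrank_eq_one_iff_of_nonzero' x hx).1 h1 (P x)
    have h2 := ht.app hP hx hg hgx'
    rw [← hc, map_smul, hgx', smul_eq_mul] at h2
    have hc0 : c = 0 := (mul_eq_zero.1 h2).resolve_right (norm_ne_zero_iff.2 hx)
    rw [← hc, hc0, zero_smul]
  intro x
  by_cases hx0 : x = 0
  · obtain ⟨e, he⟩ := exists_ne (0 : X)
    have h3 : Filter.Tendsto (fun t : ℝ => P (t • e)) (nhdsWithin 0 (Set.Ioi 0)) (nhds (P 0)) := by
      have h4 : Continuous fun t : ℝ => P (t • e) := hP.continuous.comp (by fun_prop)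
      have h5 := (h4.tendsto 0).mono_left (nhdsWithin_le_nhds (s := Set.Ioi (0 : ℝ)))
      simpa using h5
    have h4 : Filter.Tendsto (fun t : ℝ => P (t • e)) (nhdsWithin 0 (Set.Ioi 0)) (nhds 0) := by
      refine tendsto_const_nhds.congr' ?_
      filter_upwards [self_mem_nhdsWithin] with t ht0
      have ht1 : (0 : ℝ) < t := ht0
      exact (hx _ (smul_ne_zero ht1.ne' he)).symm
    rw [hx0]
    exact tendsto_nhds_unique h3 h4
  · exact hx x hx0

end Y754.PN
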