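import Mathlib

/-!
# Polynomial numerical indices: general facts
-/

set_option autoImplicit false

namespace Y754.PN

variable {X : Type} [NormedAddCommGroup X] [NormedSpace ℝ X]

/-- the sup norm of the polynomial -/
noncomputable def pnorm {k : ℕ} (A : ContinuousMultilinearMap ℝ (fun _ : Fin k => X) X) : ℝ :=
  sSup {r : ℝ | ∃ x : X, ‖x‖ ≤ 1 ∧ r = ‖A (fun _ => x)‖}

/-- the numerical radius of the polynomial -/
noncomputable def prad {k : ℕ} (A : ContinuousMultilinearMap ℝ (fun _ : Fin k => X) X) : ℝ :=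
  sSup {r : ℝ | ∃ (x : X) (f : X →L[ℝ] ℝ), ‖x‖ = 1 ∧ ‖f‖ = 1 ∧ f x = 1 ∧
    r = |f (A (fun _ => x))|}

/-- the polynomial numerical index -/
noncomputable def pidx (k : ℕ) (X : Type) [NormedAddCommGroup X] [NormedSpace ℝ X] : ℝ :=
  sInf {r : ℝ | ∃ A : ContinuousMultilinearMap ℝ (fun _ : Fin k => X) X,
    pnorm A = 1 ∧ r = prad A}

/-- the numerical index -/
noncomputable def nidx (X : Type) [NormedAddCommGroup X] [NormedSpace ℝ X] : ℝ :=
  sInf {r : ℝ | ∃ T : X →L[ℝ] X, ‖T‖ = 1 ∧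
    r = sSup {s : ℝ | ∃ (x : X) (f : X →L[ℝ] ℝ), ‖x‖ = 1 ∧ ‖f‖ = 1 ∧ f x = 1 ∧ s = |f (T x)|}}

/-- vanishing on all supporting functionals -/
def Tan (P : X → X) : Prop :=
  ∀ (x : X) (f : X →L[ℝ] ℝ), ‖x‖ = 1 → ‖f‖ = 1 → f x = 1 → f (P x) = 0

/-- real homogeneous polynomials -/
def HP (k : ℕ) (φ : X → ℝ) : Prop :=
  ∃ B : ContinuousMultilinearMap ℝ (fun _ : Fin k => X) ℝ, ∀ x, B (fun _ => x) = φ x

/-- vector valued homogeneous polynomials -/
def HV (k : ℕ) (P : X → X) : Prop :=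
  ∃ B : ContinuousMultilinearMap ℝ (fun _ : Fin k => X) X, ∀ x, B (fun _ => x) = P x

lemma apply_le {k : ℕ} (A : ContinuousMultilinearMap ℝ (fun _ : Fin k => X) X) {x : X}
    (hx : ‖x‖ ≤ 1) : ‖A (fun _ => x)‖ ≤ ‖A‖ :=
  calc ‖A (fun _ => x)‖ ≤ ‖A‖ * ∏ _i : Fin k, ‖x‖ := A.le_opNorm _
    _ ≤ ‖A‖ * 1 := by
        gcongr
        exact Finset.prod_le_one (fun _ _ => norm_nonneg _) (fun _ _ => hx)
    _ = ‖A‖ := mul_one _

lemma pnorm_bdd {k : ℕ} (A : ContinuousMultilinearMap ℝ (fun _ : Fin k => X) X) :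
    BddAbove {r : ℝ | ∃ x : X, ‖x‖ ≤ 1 ∧ r = ‖A (fun _ => x)‖} := by
  refine ⟨‖A‖, ?_⟩
  rintro _ ⟨x, hx, rfl⟩
  exact apply_le A hx

lemma prad_le {k : ℕ} (A : ContinuousMultilinearMap ℝ (fun _ : Fin k => X) X) {x : X}
    {f : X →L[ℝ] ℝ} (hx : ‖x‖ = 1) (hf : ‖f‖ = 1) : |f (A (fun _ => x))| ≤ ‖A‖ := by
  have h1 := f.le_opNorm (A (fun _ => x))
  rw [hf, one_mul] at h1
  exact h1.trans (apply_le A hx.le)

lemma prad_bdd {k : ℕ} (A : ContinuousMultilinearMap ℝ (fun _ : Fin k => X) X) :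
    BddAbove {r : ℝ | ∃ (x : X) (f : X →L[ℝ] ℝ), ‖x‖ = 1 ∧ ‖f‖ = 1 ∧ f x = 1 ∧
      r = |f (A (fun _ => x))|} := by
  refine ⟨‖A‖, ?_⟩
  rintro _ ⟨x, f, hx, hf, -, rfl⟩
  exact prad_le A hx hf

lemma prad_nonneg {k : ℕ} (A : ContinuousMultilinearMap ℝ (fun _ : Fin k => X) X) :
    0 ≤ prad A := by
  apply Real.sSup_nonneg
  rintro _ ⟨x, f, -, -, -, rfl⟩
  exact abs_nonneg _

lemma pnorm_nonneg {k : ℕ} (A : ContinuousMultilinearMap ℝ (fun _ : Fin k => X) X) :
    0 ≤ pnorm A := by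
  apply Real.sSup_nonneg
  rintro _ ⟨x, -, rfl⟩
  exact norm_nonneg _

lemma prad_zero {k : ℕ} {A : ContinuousMultilinearMap ℝ (fun _ : Fin k => X) X}
    (h : prad A = 0) : Tan fun x => A (fun _ => x) := by
  intro x f hx hf hfx
  have := le_csSup (prad_bdd A) ⟨x, f, hx, hf, hfx, rfl⟩
  change _ ≤ prad A at this
  rw [h] at this
  exact abs_nonpos_iff.1 this

lemma prad_of_tan {k : ℕ} {A : ContinuousMultilinearMap ℝ (fun _ : Fin k => X) X}
    (h : Tan fun x => A (fun _ => x)) : prad A = 0 := by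
  apply le_antisymm _ (prad_nonneg A)
  apply Real.sSup_le _ le_rfl
  rintro _ ⟨x, f, hx, hf, hfx, rfl⟩
  rw [h x f hx hf hfx, abs_zero]

lemma hom {k : ℕ} (A : ContinuousMultilinearMap ℝ (fun _ : Fin k => X) X) (c : ℝ) (x : X) :
    A (fun _ => c • x) = c ^ k • A (fun _ => x) := by
  have := A.map_smul_univ (fun _ : Fin k => c) (fun _ => x)
  simpa using this

lemma HV.hom {k : ℕ} {P : X → X} (h : HV k P) (c : ℝ) (x : X) : P (c • x) = c ^ k • P x := by
  obtain ⟨A, hA⟩ := h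
  rw [← hA, ← hA, PN.hom]

lemma HV.continuous {k : ℕ} {P : X → X} (h : HV k P) : Continuous P := by
  obtain ⟨A, hA⟩ := h
  have : P = fun x => A (fun _ => x) := by
    funext x
    exact (hA x).symm
  rw [this]
  exact A.cont.comp (continuous_pi fun _ => continuous_id)

lemma pnorm_pos {k : ℕ} {A : ContinuousMultilinearMap ℝ (fun _ : Fin k => X) X} {x : X}
    (hx : A (fun _ => x) ≠ 0) : 0 < pnorm A := by
  have h1 : (0 : ℝ) < (‖x‖ + 1)⁻¹ := by positivity
  have h2 : ‖(‖x‖ + 1)⁻¹ • x‖ ≤ 1 := by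
    rw [norm_smul, norm_inv, Real.norm_of_nonneg (by positivity)]
    rw [inv_mul_le_iff₀ (by positivity)]
    linarith
  have h3 : 0 < ‖A (fun _ => (‖x‖ + 1)⁻¹ • x)‖ := by
    rw [PN.hom, norm_smul]
    exact mul_pos (norm_pos_iff.2 (pow_ne_zero _ h1.ne')) (norm_pos_iff.2 hx)
  exact lt_of_lt_of_le h3 (le_csSup (pnorm_bdd A) ⟨_, h2, rfl⟩)

lemma pnorm_smul {k : ℕ} (c : ℝ) (hc : 0 ≤ c)
    (A : ContinuousMultilinearMap ℝ (fun _ : Fin k => X) X) :
    pnorm (c • A) = c * pnorm A := by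
  unfold pnorm
  rw [← smul_eq_mul, ← Real.sSup_smul_of_nonneg hc]
  congr 1
  ext r
  constructor
  · rintro ⟨x, hx, rfl⟩
    refine ⟨‖A (fun _ => x)‖, ⟨x, hx, rfl⟩, ?_⟩
    simp only [smul_apply, norm_smul, Real.norm_of_nonneg hc, smul_eq_mul]
  · rintro ⟨_, ⟨x, hx, rfl⟩, rfl⟩
    refine ⟨x, hx, ?_⟩
    simp only [smul_apply, norm_smul, Real.norm_of_nonneg hc, smul_eq_mul]

/-- a nonzero tangent polynomial makes the index zero -/
theorem idx_zero {k : ℕ} {P : X → X} (hP : HV k P) (ht : Tan P) (hne : ∃ x, P x ≠ 0) :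
    pidx k X = 0 := by
  obtain ⟨A, hA⟩ := hP
  obtain ⟨x, hx⟩ := hne
  have hpos : 0 < pnorm A := pnorm_pos (x := x) (by rwa [hA])
  apply le_antisymm
  · have hmem : (0 : ℝ) ∈ {r : ℝ | ∃ A : ContinuousMultilinearMap ℝ (fun _ : Fin k => X) X,
        pnorm A = 1 ∧ r = prad A} := by
      refine ⟨(pnorm A)⁻¹ • A, ?_, ?_⟩
      · rw [pnorm_smul _ (inv_nonneg.2 hpos.le), inv_mul_cancel₀ hpos.ne']
      · symm
        apply prad_of_tan
        intro y f hy hf hfy
        change f ((pnorm A)⁻¹ • A (fun _ => y)) = 0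
        rw [hA, map_smul, ht y f hy hf hfy, smul_zero]
    refine csInf_le ⟨0, ?_⟩ hmem
    rintro _ ⟨A, -, rfl⟩
    exact prad_nonneg A
  · apply Real.sInf_nonneg
    rintro _ ⟨A, -, rfl⟩
    exact prad_nonneg A

lemma prad_lip {k : ℕ} (A B : ContinuousMultilinearMap ℝ (fun _ : Fin k => X) X) :
    prad A ≤ prad B + ‖A - B‖ := by
  apply Real.sSup_le
  · rintro _ ⟨x, f, hx, hf, hfx, rfl⟩
    have h1 : f (A (fun _ => x)) = f (B (fun _ => x)) + f ((A - B) (fun _ => x)) := by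
      rw [sub_apply, map_sub]
      ring
    rw [h1]
    refine (abs_add_le _ _).trans (add_le_add ?_ (prad_le _ hx hf))
    exact le_csSup (prad_bdd B) ⟨x, f, hx, hf, hfx, rfl⟩
  · exact add_nonneg (prad_nonneg B) (norm_nonneg _)

lemma prad_cont {k : ℕ} :
    Continuous (fun A : ContinuousMultilinearMap ℝ (fun _ : Fin k => X) X => prad A) := by
  have : LipschitzWith 1
      (fun A : ContinuousMultilinearMap ℝ (fun _ : Fin k => X) X => prad A) := by
    apply LipschitzWith.of_dist_le_mul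
    intro A B
    rw [NNReal.coe_one, one_mul, Real.dist_eq, dist_eq_norm, abs_le]
    have h1 := prad_lip A B
    have h2 := prad_lip B A
    rw [norm_sub_rev] at h2
    constructor <;> linarith
  exact this.continuous

lemma prad_smul {k : ℕ} (c : ℝ) (hc : 0 ≤ c)
    (A : ContinuousMultilinearMap ℝ (fun _ : Fin k => X) X) :
    prad (c • A) = c * prad A := by
  unfold prad
  rw [← smul_eq_mul, ← Real.sSup_smul_of_nonneg hc]
  congr 1
  ext r
  constructor
  · rintro ⟨x, f, hx, hf, hfx, rfl⟩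
    refine ⟨|f (A (fun _ => x))|, ⟨x, f, hx, hf, hfx, rfl⟩, ?_⟩
    simp only [smul_apply, map_smul, smul_eq_mul, abs_mul, abs_of_nonneg hc]
  · rintro ⟨_, ⟨x, f, hx, hf, hfx, rfl⟩, rfl⟩
    refine ⟨x, f, hx, hf, hfx, ?_⟩
    simp only [smul_apply, map_smul, smul_eq_mul, abs_mul, abs_of_nonneg hc]

/-- the multilinear maps with zero polynomial -/
noncomputable def kerP (k : ℕ) (X : Type) [NormedAddCommGroup X] [NormedSpace ℝ X] :
    Submodule ℝ (ContinuousMultilinearMap ℝ (fun _ : Fin k => X) X) where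
  carrier := {A | ∀ x, A (fun _ => x) = 0}
  add_mem' := by
    intro A B hA hB x
    rw [add_apply, hA x, hB x, add_zero]
  zero_mem' := by
    intro x
    rfl
  smul_mem' := by
    intro c A hA x
    rw [smul_apply, hA x, smul_zero]

instance fin_cml {k : ℕ} [FiniteDimensional ℝ X] :
    FiniteDimensional ℝ (ContinuousMultilinearMap ℝ (fun _ : Fin k => X) X) := by
  have : Function.Injective (ContinuousMultilinearMap.toMultilinearMapLinear (R' := ℝ) (A := ℝ)
      (M₁ := fun _ : Fin k => X) (M₂ := X)) := ContinuousMultilinearMap.toMultilinearMap_injective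
  exact FiniteDimensional.of_injective _ this

/-- products of functionals -/
noncomputable def mon {k : ℕ} (g : Fin k → (X →L[ℝ] ℝ)) :
    ContinuousMultilinearMap ℝ (fun _ : Fin k => X) ℝ :=
  (ContinuousMultilinearMap.mkPiAlgebra ℝ (Fin k) ℝ).compContinuousLinearMap g

lemma mon_apply {k : ℕ} (g : Fin k → (X →L[ℝ] ℝ)) (x : X) :
    mon g (fun _ => x) = ∏ i, g i x := by
  simp [mon]

lemma exists_nonzero [Nontrivial X] (k : ℕ) :
    ∃ A : ContinuousMultilinearMap ℝ (fun _ : Fin k => X) X, 0 < pnorm A := by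
  obtain ⟨u, hu⟩ := exists_ne (0 : X)
  obtain ⟨f, -, hf⟩ := exists_dual_vector ℝ u (norm_ne_zero_iff.2 hu)
  refine ⟨(mon fun _ => f).smulRight u, pnorm_pos (x := u) ?_⟩
  rw [ContinuousMultilinearMap.smulRight_apply, mon_apply]
  apply smul_ne_zero _ hu
  rw [Finset.prod_const]
  apply pow_ne_zero
  rw [hf]
  exact_mod_cast norm_ne_zero_iff.2 hu

/-- if only the zero polynomial is tangent then the index is positive -/
theorem idx_pos [FiniteDimensional ℝ X] [Nontrivial X] {k : ℕ}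
    (h : ∀ P : X → X, HV k P → Tan P → ∀ x, P x = 0) : 0 < pidx k X := by
  obtain ⟨N, hN⟩ := Submodule.exists_isCompl (kerP k X)
  -- a positive lower bound on `N`
  have hc : ∃ c : ℝ, 0 < c ∧ ∀ A ∈ N, c * ‖A‖ ≤ prad A := by
    have hfd : FiniteDimensional ℝ N := inferInstance
    have hprop : ProperSpace N := FiniteDimensional.proper ℝ N
    have hcomp : IsCompact (Metric.sphere (0 : N) 1) := isCompact_sphere 0 1
    rcases (Metric.sphere (0 : N) 1).eq_empty_or_nonempty with he | hne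
    · refine ⟨1, one_pos, fun A hA => ?_⟩
      have hA0 : A = 0 := by
        by_contra hcon
        have hn : ‖A‖ ≠ 0 := norm_ne_zero_iff.2 hcon
        have : (⟨‖A‖⁻¹ • A, N.smul_mem _ hA⟩ : N) ∈ Metric.sphere (0 : N) 1 := by
          rw [mem_sphere_zero_iff_norm]
          change ‖‖A‖⁻¹ • A‖ = 1
          rw [norm_smul, norm_inv, norm_norm, inv_mul_cancel₀ hn]
        rw [he] at this
        exact this
      rw [hA0, norm_zero, mul_zero]
      exact prad_nonneg _
    · obtain ⟨A0, hA0, hmin⟩ := hcomp.exists_isMinOn hne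
        ((prad_cont (X := X) (k := k)).comp continuous_subtype_val).continuousOn
      have hA0n : ‖(A0 : ContinuousMultilinearMap ℝ (fun _ : Fin k => X) X)‖ = 1 := by
        rw [mem_sphere_zero_iff_norm] at hA0
        exact hA0
      have hpos : 0 < prad (A0 : ContinuousMultilinearMap ℝ (fun _ : Fin k => X) X) := by
        rcases (prad_nonneg (A0 : ContinuousMultilinearMap ℝ (fun _ : Fin k => X) X)).lt_or_eq
          with h1 | h1
        · exact h1
        · exfalso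
          have h2 : (A0 : ContinuousMultilinearMap ℝ (fun _ : Fin k => X) X) ∈ kerP k X := by
            intro x
            exact h (fun x => (A0 : ContinuousMultilinearMap ℝ (fun _ : Fin k => X) X)
              (fun _ => x)) ⟨_, fun _ => rfl⟩ (prad_zero h1.symm) x
          have h3 := (Submodule.disjoint_def.1 hN.disjoint) _ h2 A0.2
          rw [h3, norm_zero] at hA0n
          exact zero_ne_one hA0n
      refine ⟨_, hpos, fun A hA => ?_⟩
      rcases eq_or_ne A 0 with rfl | hA0'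
      · rw [norm_zero, mul_zero]
        exact prad_nonneg _
      · have hn : 0 < ‖A‖ := norm_pos_iff.2 hA0'
        have hmem : (⟨‖A‖⁻¹ • A, N.smul_mem _ hA⟩ : N) ∈ Metric.sphere (0 : N) 1 := by
          rw [mem_sphere_zero_iff_norm]
          change ‖‖A‖⁻¹ • A‖ = 1
          rw [norm_smul, norm_inv, norm_norm, inv_mul_cancel₀ hn.ne']
        have h1 : prad (A0 : ContinuousMultilinearMap ℝ (fun _ : Fin k => X) X) ≤
            prad (‖A‖⁻¹ • A) := hmin hmem
        rw [prad_smul _ (inv_nonneg.2 hn.le)] at h1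
        rw [inv_mul_eq_div, le_div_iff₀ hn] at h1
        exact h1
  obtain ⟨c, hc, hcN⟩ := hc
  obtain ⟨A1, hA1⟩ := exists_nonzero (X := X) k
  have hlow : ∀ r ∈ {r : ℝ | ∃ A : ContinuousMultilinearMap ℝ (fun _ : Fin k => X) X,
      pnorm A = 1 ∧ r = prad A}, c ≤ r := by
    rintro _ ⟨A, hA, rfl⟩
    have hAtop : A ∈ kerP k X ⊔ N := by
      rw [hN.sup_eq_top]
      exact Submodule.mem_top
    obtain ⟨K, hK, B, hB, rfl⟩ := Submodule.mem_sup.1 hAtop
    have h1 : ∀ x, (K + B) (fun _ => x) = B (fun _ => x) := by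
      intro x
      rw [add_apply, hK x, zero_add]
    have h2 : pnorm (K + B) = pnorm B := by
      unfold pnorm
      simp only [h1]
    have h3 : prad (K + B) = prad B := by
      unfold prad
      simp only [h1]
    have h4 : pnorm B ≤ ‖B‖ := by
      apply Real.sSup_le _ (norm_nonneg _)
      rintro _ ⟨x, hx, rfl⟩
      exact apply_le B hx
    rw [h3]
    rw [h2] at hA
    refine le_trans ?_ (hcN B hB)
    have : 1 ≤ ‖B‖ := by linarith
    nlinarith
  have hne : {r : ℝ | ∃ A : ContinuousMultilinearMap ℝ (fun _ : Fin k => X) X,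
      pnorm A = 1 ∧ r = prad A}.Nonempty := by
    refine ⟨_, (pnorm A1)⁻¹ • A1, ?_, rfl⟩
    rw [pnorm_smul _ (inv_nonneg.2 hA1.le), inv_mul_cancel₀ hA1.ne']
  exact lt_of_lt_of_le hc (le_csInf hne hlow)

/-- the index of order one is the numerical index -/
theorem nidx_eq : nidx X = pidx 1 X := by
  unfold nidx pidx
  congr 1
  ext r
  constructor
  · rintro ⟨T, hT, rfl⟩
    refine ⟨ContinuousMultilinearMap.ofSubsingleton ℝ X X (0 : Fin 1) T, ?_, ?_⟩
    · refine Eq.trans ?_ hT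
      rw [← T.sSup_unitClosedBall_eq_norm]
      unfold pnorm
      congr 1
      ext r
      simp only [Set.mem_ofPred_eq, Set.mem_image, Metric.mem_closedBall, dist_zero_right]
      constructor
      · rintro ⟨x, hx, rfl⟩
        exact ⟨x, hx, rfl⟩
      · rintro ⟨x, hx, rfl⟩
        exact ⟨x, hx, rfl⟩
    · rfl
  · rintro ⟨A, hA, rfl⟩
    set T : X →L[ℝ] X := (ContinuousMultilinearMap.ofSubsingleton ℝ X X (0 : Fin 1)).symm A with hT
    have hTA : ∀ x, T x = A (fun _ => x) := fun x => rfl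
    refine ⟨T, ?_, ?_⟩
    · refine Eq.trans ?_ hA
      rw [← T.sSup_unitClosedBall_eq_norm]
      unfold pnorm
      congr 1
      ext r
      simp only [Set.mem_ofPred_eq, Set.mem_image, Metric.mem_closedBall, dist_zero_right]
      constructor
      · rintro ⟨x, hx, rfl⟩
        exact ⟨x, hx, rfl⟩
      · rintro ⟨x, hx, rfl⟩
        exact ⟨x, hx, rfl⟩
    · rfl

end Y754.PN
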