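import Pool.Agent.Y754.PN.Poly

/-!
# A family of spaces
-/

set_option autoImplicit false

namespace Y754.PN

open MvPolynomial

/-- the cylinders: `v₀^q + v₁^q`, then `v₂²` (plus `v₁²` if `e`), `v₃²`, ... -/
def fam (s q : ℕ) (e : Bool) (hq : Even q ∧ 2 ≤ q) : Dat (Fin (s + 2)) (Fin (s + 1)) where
  p := Fin.cases q (fun _ => 2)
  S := Fin.cases {0, 1} (fun i : Fin s => if i.val = 0 ∧ e = true then {1, i.succ.succ}
    else {i.succ.succ})
  hp := by
    intro i
    refine Fin.cases ?_ (fun j => ?_) i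
    · exact hq
    · exact ⟨even_two, le_rfl⟩
  cov := by
    intro j
    refine Fin.cases ⟨0, ?_⟩ (fun j => ?_) j
    · simp
    · refine Fin.cases ⟨0, ?_⟩ (fun j => ⟨j.succ, ?_⟩) j
      · simp
      · simp only [Fin.cases_succ]
        split_ifs <;> simp

variable {s q : ℕ} {e : Bool} {hq : Even q ∧ 2 ≤ q}

lemma fam_p0 : (fam s q e hq).p 0 = q := rfl

lemma fam_pi (i : Fin s) : (fam s q e hq).p i.succ = 2 := rfl

lemma fam_S0 : (fam s q e hq).S 0 = {0, 1} := rfl

lemma fam_Si (i : Fin s) : (fam s q e hq).S i.succ =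
    if i.val = 0 ∧ e = true then {1, i.succ.succ} else {i.succ.succ} := rfl

lemma one_ne (i : Fin s) : (1 : Fin (s + 2)) ≠ i.succ.succ := by
  intro h
  have := congrArg Fin.val h
  simp at this

lemma c0 : ∀ l, l ≠ 0 → (0 : Fin (s + 2)) ∉ (fam s q e hq).S l := by
  intro l
  refine Fin.cases (fun h => absurd rfl h) (fun i _ => ?_) l
  rw [fam_Si]
  split_ifs
  · simp only [Finset.mem_insert, Finset.mem_singleton, not_or]
    exact ⟨Fin.zero_ne_one, (Fin.succ_ne_zero _).symm⟩
  · simp only [Finset.mem_singleton]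
    exact (Fin.succ_ne_zero _).symm

lemma ci (i : Fin s) : ∀ l, l ≠ i.succ → i.succ.succ ∉ (fam s q e hq).S l := by
  intro l
  refine Fin.cases (fun _ => ?_) (fun j hj => ?_) l
  · rw [fam_S0]
    simp only [Finset.mem_insert, Finset.mem_singleton, not_or]
    exact ⟨Fin.succ_ne_zero _, (one_ne i).symm⟩
  · have h1 : i.succ.succ ≠ j.succ.succ := by
      intro h
      exact hj (Fin.succ_injective _ h).symm
    rw [fam_Si]
    split_ifs
    · simp only [Finset.mem_insert, Finset.mem_singleton, not_or]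
      exact ⟨(one_ne i).symm, h1⟩
    · simp only [Finset.mem_singleton]
      exact h1

lemma mem_i (i : Fin s) : i.succ.succ ∈ (fam s q e hq).S i.succ := by
  rw [fam_Si]
  split_ifs <;> simp

/-- no tangent polynomials of low degree -/
theorem fam_low {k : ℕ} (hs : e = true → 1 ≤ s) (hk : k < q - 1 + (if e = true then 1 else 0))
    (P : Sp (fam s q e hq) → Sp (fam s q e hq)) (hP : HV k P) (ht : Tan P) :
    ∀ v, P v = 0 := by
  obtain ⟨A, hA⟩ := hP
  have ht' : Tan fun v => A fun _ => v := by
    have : (fun v => A fun _ => v) = P := funext hA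
    rwa [this]
  have hq2 := hq.2
  have I0 : X 0 ^ (q - 1) * pol (fam s q e hq) A 0 + X 1 ^ (q - 1) * pol (fam s q e hq) A 1 = 0 := by
    have h1 := ident (fam s q e hq) ht' (i := 0) (c := 0) (by rw [fam_S0]; simp) c0
    rw [fam_S0, fam_p0, Finset.sum_pair Fin.zero_ne_one] at h1
    exact h1
  have Ii : ∀ i : Fin s, (if i.val = 0 ∧ e = true then
      X 1 ^ 1 * pol (fam s q e hq) A 1 + X i.succ.succ ^ 1 * pol (fam s q e hq) A i.succ.succ
      else X i.succ.succ ^ 1 * pol (fam s q e hq) A i.succ.succ) = 0 := by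
    intro i
    have h1 := ident (fam s q e hq) ht' (i := i.succ) (c := i.succ.succ) (mem_i i) (ci i)
    rw [fam_Si, fam_pi] at h1
    split_ifs at h1 ⊢ with h2
    · rw [Finset.sum_pair (one_ne i)] at h1
      exact h1
    · rw [Finset.sum_singleton] at h1
      exact h1
  have P1 : pol (fam s q e hq) A 1 = 0 := by
    by_contra hne
    obtain ⟨α, hα⟩ := ne_zero_iff.1 hne
    have hdeg : α.degree = k := by
      by_contra hcon
      exact hα ((pol_hom (fam s q e hq) A 1).coeff_eq_zero hcon)
    have h0 : q - 1 ≤ α 0 := low Fin.zero_ne_one I0 hα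
    have hsum : α.degree = ∑ j, α j := Finsupp.degree_eq_sum α
    by_cases he : e = true
    · have hs1 := hs he
      set i0 : Fin s := ⟨0, hs1⟩ with hi0
      have h2 := Ii i0
      rw [if_pos ⟨rfl, he⟩] at h2
      have h3 : 1 ≤ α i0.succ.succ := low (one_ne i0).symm ((add_comm _ _).trans h2) hα
      have h4 : α 0 + α i0.succ.succ ≤ ∑ j, α j := by
        rw [← Finset.sum_pair (f := fun j => α j) (Fin.succ_ne_zero i0.succ).symm]
        exact Finset.sum_le_sum_of_subset (Finset.subset_univ _)
      rw [if_pos he] at hk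
      omega
    · have h4 : α 0 ≤ ∑ j, α j :=
        Finset.single_le_sum (f := fun j => α j) (fun _ _ => Nat.zero_le _) (Finset.mem_univ 0)
      rw [if_neg he] at hk
      omega
  have hX : ∀ (j : Fin (s + 2)) (n : ℕ), (X j : MvPolynomial (Fin (s + 2)) ℝ) ^ n ≠ 0 :=
    fun j n => pow_ne_zero _ (X_ne_zero j)
  have P0 : pol (fam s q e hq) A 0 = 0 := by
    rw [P1, mul_zero, add_zero] at I0
    exact (mul_eq_zero.1 I0).resolve_left (hX _ _)
  have Pi : ∀ i : Fin s, pol (fam s q e hq) A i.succ.succ = 0 := by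
    intro i
    have h1 := Ii i
    rw [P1, mul_zero, zero_add, ite_self] at h1
    exact (mul_eq_zero.1 h1).resolve_left (hX _ _)
  have all : ∀ j, pol (fam s q e hq) A j = 0 := by
    intro j
    refine Fin.cases P0 (fun j => ?_) j
    exact Fin.cases P1 (fun i => Pi i) j
  intro v
  rw [← hA]
  funext j
  have h1 := eval_pol (fam s q e hq) A j v
  rw [all j, map_zero] at h1
  exact h1.symm

lemma sum_be {J ι : Type} [Fintype J] [DecidableEq J] [Fintype ι] (D : Dat J ι) (w : J → ℝ)
    (j : J) : (∑ i, w i • be D i) j = w j := by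
  have : (∑ i, w i • be D i) j = ∑ i, (w i • be D i) j := map_sum (co D j) _ _
  rw [this]
  simp [be]

/-- tangent polynomials, first case -/
theorem fam_zero_false {k : ℕ} (hk : q - 1 ≤ k) : pidx k (Sp (fam s q false hq)) = 0 := by
  obtain ⟨t, ht⟩ := Nat.exists_eq_add_of_le hk
  let w : Fin (s + 2) → Sp (fam s q false hq) → ℝ := fun j v =>
    if j = 0 then v 0 ^ t * (v 1 ^ (q - 1) * 1)
    else if j = 1 then -(v 0 ^ t * (v 0 ^ (q - 1) * 1)) else 0
  let W : Sp (fam s q false hq) → Sp (fam s q false hq) := fun v => ∑ j, w j v • be (fam s q false hq) j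
  have hW : ∀ v j, W v j = w j v := fun v j => sum_be (fam s q false hq) (fun j => w j v) j
  have hHV : HV k W := by
    apply HV.sum Finset.univ w (be (fam s q false hq))
    intro j _
    by_cases h0 : j = 0
    · refine (((HP.one (X := Sp (fam s q false hq))).pow_mul (co (fam s q false hq) 1) (q - 1)).pow_mul (co (fam s q false hq) 0) t).congr'
        (by omega) fun v => ?_
      simp only [w, if_pos h0, co_apply]
    · by_cases h1 : j = 1
      · refine (((HP.one (X := Sp (fam s q false hq))).pow_mul (co (fam s q false hq) 0) (q - 1)).pow_mul (co (fam s q false hq) 0) t).neg.congr'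
          (by omega) fun v => ?_
        simp only [w, if_neg h0, if_pos h1, co_apply]
      · refine (HP.zero k).congr' rfl fun v => ?_
        simp only [w, if_neg h0, if_neg h1]
  obtain ⟨o, ho⟩ : ∃ o : Sp (fam s q false hq), ∀ j, o j = 1 := ⟨fun _ => 1, fun _ => rfl⟩
  refine idx_zero hHV ?_ ⟨o, ?_⟩
  · intro v f hv hf hfv
    refine tan_of (fam s q false hq) (v := v) (W := W v) ?_ hv hf hfv
    intro i
    refine Fin.cases ?_ (fun i => ?_) i
    · rw [fam_S0, fam_p0, Finset.sum_pair Fin.zero_ne_one]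
      have e0 : W v 0 = v 0 ^ t * (v 1 ^ (q - 1) * 1) := by
        rw [hW]
        simp only [w]
        rw [if_pos trivial]
      have e1 : W v 1 = -(v 0 ^ t * (v 0 ^ (q - 1) * 1)) := by
        rw [hW]
        simp only [w]
        rw [if_neg (Fin.zero_ne_one (n := s)).symm, if_pos trivial]
      rw [e0, e1]
      ring
    · rw [fam_Si, fam_pi, if_neg (by simp), Finset.sum_singleton]
      have e2 : W v i.succ.succ = 0 := by
        rw [hW]
        simp only [w, if_neg (Fin.succ_ne_zero i.succ), if_neg (one_ne i).symm]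
      rw [e2, mul_zero]
  · intro h0
    have h1 : W o 0 = 0 := by
      rw [h0]
      rfl
    rw [hW] at h1
    simp [w, ho] at h1

/-- tangent polynomials, second case -/
theorem fam_zero_true {k : ℕ} (hk : q ≤ k) : pidx k (Sp (fam (s + 1) q true hq)) = 0 := by
  obtain ⟨t, ht⟩ := Nat.exists_eq_add_of_le hk
  have hq2 := hq.2
  set z : Fin (s + 3) := (0 : Fin (s + 1)).succ.succ with hz
  have hz0 : z ≠ 0 := Fin.succ_ne_zero _
  have hz1 : z ≠ 1 := (one_ne (s := s + 1) 0).symm
  let w : Fin (s + 3) → Sp (fam (s + 1) q true hq) → ℝ := fun j v =>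
    if j = 0 then v 0 ^ t * (v 1 ^ (q - 1) * (v z ^ 1 * 1))
    else if j = 1 then -(v 0 ^ t * (v 0 ^ (q - 1) * (v z ^ 1 * 1)))
    else if j = z then v 0 ^ t * (v 0 ^ (q - 1) * (v 1 ^ 1 * 1)) else 0
  let W : Sp (fam (s + 1) q true hq) → Sp (fam (s + 1) q true hq) := fun v => ∑ j, w j v • be (fam (s + 1) q true hq) j
  have hW : ∀ v j, W v j = w j v := fun v j => sum_be (fam (s + 1) q true hq) (fun j => w j v) j
  have hHV : HV k W := by
    apply HV.sum Finset.univ w (be (fam (s + 1) q true hq))
    intro j _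
    by_cases h0 : j = 0
    · refine ((((HP.one (X := Sp (fam (s + 1) q true hq))).pow_mul (co (fam (s + 1) q true hq) z) 1).pow_mul (co (fam (s + 1) q true hq) 1)
        (q - 1)).pow_mul (co (fam (s + 1) q true hq) 0) t).congr' (by omega) fun v => ?_
      simp only [w, if_pos h0, co_apply]
    · by_cases h1 : j = 1
      · refine ((((HP.one (X := Sp (fam (s + 1) q true hq))).pow_mul (co (fam (s + 1) q true hq) z) 1).pow_mul (co (fam (s + 1) q true hq) 0)
          (q - 1)).pow_mul (co (fam (s + 1) q true hq) 0) t).neg.congr' (by omega) fun v => ?_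
        simp only [w, if_neg h0, if_pos h1, co_apply]
      · by_cases h2 : j = z
        · refine ((((HP.one (X := Sp (fam (s + 1) q true hq))).pow_mul (co (fam (s + 1) q true hq) 1) 1).pow_mul (co (fam (s + 1) q true hq) 0)
            (q - 1)).pow_mul (co (fam (s + 1) q true hq) 0) t).congr' (by omega) fun v => ?_
          simp only [w, if_neg h0, if_neg h1, if_pos h2, co_apply]
        · refine (HP.zero k).congr' rfl fun v => ?_
          simp only [w, if_neg h0, if_neg h1, if_neg h2]
  have e0 : ∀ v, W v 0 = v 0 ^ t * (v 1 ^ (q - 1) * (v z ^ 1 * 1)) := by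
    intro v
    rw [hW]
    simp only [w]
    rw [if_pos trivial]
  have e1 : ∀ v, W v 1 = -(v 0 ^ t * (v 0 ^ (q - 1) * (v z ^ 1 * 1))) := by
    intro v
    rw [hW]
    simp only [w]
    rw [if_neg (Fin.zero_ne_one (n := s + 1)).symm, if_pos trivial]
  have ez : ∀ v, W v z = v 0 ^ t * (v 0 ^ (q - 1) * (v 1 ^ 1 * 1)) := by
    intro v
    rw [hW]
    simp only [w]
    rw [if_neg hz0, if_neg hz1, if_pos trivial]
  obtain ⟨o, ho⟩ : ∃ o : Sp (fam (s + 1) q true hq), ∀ j, o j = 1 := ⟨fun _ => 1, fun _ => rfl⟩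
  refine idx_zero hHV ?_ ⟨o, ?_⟩
  · intro v f hv hf hfv
    refine tan_of (fam (s + 1) q true hq) (v := v) (W := W v) ?_ hv hf hfv
    intro i
    refine Fin.cases ?_ (fun i => ?_) i
    · rw [fam_S0, fam_p0, Finset.sum_pair Fin.zero_ne_one, e0, e1]
      ring
    · rw [fam_Si, fam_pi]
      split_ifs with h
      · have hi : i = 0 := Fin.ext h.1
        rw [Finset.sum_pair (one_ne i), hi, ← hz, e1, ez]
        ring
      · rw [Finset.sum_singleton]
        have hiz : i.succ.succ ≠ z := by
          intro h1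
          apply h
          have h2 := Fin.succ_injective _ (Fin.succ_injective _ h1)
          rw [h2]
          exact ⟨rfl, rfl⟩
        have e2 : W v i.succ.succ = 0 := by
          rw [hW]
          simp only [w, if_neg (Fin.succ_ne_zero i.succ), if_neg (one_ne i).symm, if_neg hiz]
        rw [e2, mul_zero]
  · intro h0
    have h1 : W o 0 = 0 := by
      rw [h0]
      rfl
    rw [e0] at h1
    simp [ho] at h1

instance {J ι : Type} [Fintype J] [Fintype ι] [Nonempty J] (D : Dat J ι) :
    Nontrivial (Sp D) := inferInstanceAs (Nontrivial (J → ℝ))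

/-- the first order with vanishing index -/
theorem exists_space {n m : ℕ} (hm : 1 ≤ m) (h : 3 ≤ n ∨ (n = 2 ∧ Odd m)) :
    ∃ (X : Type) (_ : NormedAddCommGroup X) (_ : NormedSpace ℝ X),
      Module.finrank ℝ X = n ∧ ∀ k, pidx k X = 0 ↔ m ≤ k := by
  rcases Nat.even_or_odd m with he | ho
  · have hn : 3 ≤ n := by
      rcases h with h | ⟨-, h⟩
      · exact h
      · exact absurd he (Nat.not_even_iff_odd.2 h)
    obtain ⟨s, rfl⟩ : ∃ s, n = s + 3 := ⟨n - 3, by omega⟩
    have hq : Even m ∧ 2 ≤ m := by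
      refine ⟨he, ?_⟩
      obtain ⟨r, hr⟩ := he
      omega
    refine ⟨Sp (fam (s + 1) m true hq), inferInstance, inferInstance, ?_, fun k => ⟨?_, ?_⟩⟩
    · change Module.finrank ℝ (Fin (s + 3) → ℝ) = s + 3
      simp
    · intro hk
      by_contra hcon
      push Not at hcon
      have h1 : 0 < pidx k (Sp (fam (s + 1) m true hq)) :=
        idx_pos (fam_low (fun _ => Nat.succ_le_succ (Nat.zero_le _)) (by
          rw [if_pos rfl]
          have := hq.2
          omega))
      exact h1.ne' hk
    · exact fun hk => fam_zero_true hk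
  · have hn : 2 ≤ n := by
      rcases h with h | ⟨h, -⟩ <;> omega
    obtain ⟨s, rfl⟩ : ∃ s, n = s + 2 := ⟨n - 2, by omega⟩
    have hq : Even (m + 1) ∧ 2 ≤ m + 1 := ⟨ho.add_one, by omega⟩
    refine ⟨Sp (fam s (m + 1) false hq), inferInstance, inferInstance, ?_, fun k => ⟨?_, ?_⟩⟩
    · change Module.finrank ℝ (Fin (s + 2) → ℝ) = s + 2
      simp
    · intro hk
      by_contra hcon
      push Not at hcon
      have h1 : 0 < pidx k (Sp (fam s (m + 1) false hq)) :=
        idx_pos (fam_low (fun h => absurd h (by simp)) (by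
          rw [if_neg (by simp)]
          omega))
      exact h1.ne' hk
    · exact fun hk => fam_zero_false (by omega)

end Y754.PN
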