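import Pool.Agent.Y754.PN.Space

/-!
# The homogeneous polynomials tangent to the unit sphere
-/

set_option autoImplicit false

namespace Y754.PN

open MvPolynomial

section gen

variable {X : Type} [NormedAddCommGroup X] [NormedSpace ℝ X]

lemma HP.one : HP (X := X) 0 (fun _ => 1) :=
  ⟨ContinuousMultilinearMap.constOfIsEmpty ℝ (fun _ : Fin 0 => X) 1, fun _ => rfl⟩

lemma HP.zero (k : ℕ) : HP (X := X) k (fun _ => 0) := ⟨0, fun _ => rfl⟩

lemma HP.neg {k : ℕ} {φ : X → ℝ} (h : HP k φ) : HP k (fun x => -φ x) := by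
  obtain ⟨B, hB⟩ := h
  exact ⟨-B, fun x => by rw [neg_apply, hB]⟩

lemma HP.mul_co {k : ℕ} {φ : X → ℝ} (h : HP k φ) (g : X →L[ℝ] ℝ) :
    HP (k + 1) (fun x => g x * φ x) := by
  obtain ⟨B, hB⟩ := h
  refine ⟨ContinuousLinearMap.uncurryLeft (g.smulRight B), fun x => ?_⟩
  change g x * B (fun _ => x) = g x * φ x
  rw [hB]

lemma HP.congr' {k l : ℕ} {φ ψ : X → ℝ} (h : HP k φ) (hkl : k = l) (hφ : ∀ x, φ x = ψ x) :
    HP l ψ := by
  subst hkl
  have : φ = ψ := funext hφ
  rwa [← this]

lemma HP.pow_mul {k : ℕ} {φ : X → ℝ} (h : HP k φ) (g : X →L[ℝ] ℝ) (n : ℕ) :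
    HP (k + n) (fun x => g x ^ n * φ x) := by
  induction n with
  | zero => simpa using h
  | succ n ih =>
    exact HP.congr' (ih.mul_co g) rfl fun x => by ring

lemma HV.sum {k : ℕ} {α : Type} (s : Finset α) (φ : α → X → ℝ) (u : α → X)
    (h : ∀ j ∈ s, HP k (φ j)) : HV k (fun x => ∑ j ∈ s, φ j x • u j) := by
  classical
  have h' : ∀ j, ∃ B : ContinuousMultilinearMap ℝ (fun _ : Fin k => X) ℝ,
      j ∈ s → ∀ x, B (fun _ => x) = φ j x := by
    intro j
    by_cases hj : j ∈ s
    · obtain ⟨B, hB⟩ := h j hj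
      exact ⟨B, fun _ => hB⟩
    · exact ⟨0, fun hj' => absurd hj' hj⟩
  choose B hB using h'
  refine ⟨∑ j ∈ s, (B j).smulRight (u j), fun x => ?_⟩
  rw [sum_apply]
  refine Finset.sum_congr rfl fun j hj => ?_
  rw [ContinuousMultilinearMap.smulRight_apply, hB j hj]

end gen

variable {J ι : Type} [Fintype J] [DecidableEq J] [Fintype ι] (D : Dat J ι)

/-- the polynomial of a component -/
noncomputable def pol {k : ℕ} (A : ContinuousMultilinearMap ℝ (fun _ : Fin k => Sp D) (Sp D))
    (j : J) : MvPolynomial J ℝ :=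
  ∑ w : Fin k → J, C (co D j (A fun i => be D (w i))) * ∏ i, X (w i)

lemma eval_pol {k : ℕ} (A : ContinuousMultilinearMap ℝ (fun _ : Fin k => Sp D) (Sp D))
    (j : J) (u : J → ℝ) : eval u (pol D A j) = (A fun _ => (u : Sp D)) j := by
  have h1 : (A fun _ => (u : Sp D)) =
      ∑ w : Fin k → J, (∏ i, u (w i)) • A fun i => be D (w i) := by
    have h2 : (A fun _ => (u : Sp D)) = A fun _ => ∑ j, u j • be D j := by
      congr 1
      funext _
      exact decomp D u
    rw [h2, ContinuousMultilinearMap.map_sum]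
    refine Finset.sum_congr rfl fun w _ => ?_
    exact A.map_smul_univ (fun i => u (w i)) (fun i => be D (w i))
  have h3 : (A fun _ => (u : Sp D)) j = co D j (A fun _ => (u : Sp D)) := rfl
  rw [h3, h1, map_sum]
  unfold pol
  rw [map_sum]
  refine Finset.sum_congr rfl fun w _ => ?_
  rw [map_mul, eval_C, map_prod, map_smul, smul_eq_mul, mul_comm]
  simp only [eval_X]

lemma pol_hom {k : ℕ} (A : ContinuousMultilinearMap ℝ (fun _ : Fin k => Sp D) (Sp D)) (j : J) :
    (pol D A j).IsHomogeneous k := by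
  unfold pol
  apply IsHomogeneous.sum
  intro w _
  have h1 : (∏ i : Fin k, X (R := ℝ) (w i)).IsHomogeneous (∑ _i : Fin k, 1) :=
    IsHomogeneous.prod _ _ _ fun i _ => isHomogeneous_X ℝ (w i)
  have h2 := (isHomogeneous_C J (co D j (A fun i => be D (w i)))).mul h1
  simpa using h2

/-- the region of a form contains a box with infinite sides -/
lemma box {i : ι} {c : J} (hc : c ∈ D.S i) (hc' : ∀ l, l ≠ i → c ∉ D.S l) :
    ∃ s : J → Set ℝ, (∀ j, (s j).Infinite) ∧ ∀ v : Sp D, (∀ j, v j ∈ s j) →
      v ≠ 0 ∧ F D i v = ‖v‖ ^ D.p i := by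
  classical
  set δ : ℝ := 1 / ((Fintype.card J : ℝ) + 1) with hδ
  have hδ0 : 0 < δ := by positivity
  have hδ1 : δ ≤ 1 := by
    rw [hδ, div_le_one (by positivity)]
    have : (0 : ℝ) ≤ Fintype.card J := by positivity
    linarith
  refine ⟨fun j => if j = c then Set.Ioo 1 2 else Set.Ioo 0 δ, ?_, ?_⟩
  · intro j
    dsimp only
    split_ifs
    · exact Set.Ioo_infinite (by norm_num)
    · exact Set.Ioo_infinite hδ0
  · intro v hv
    have hvc : 1 < v c := by
      have := hv c
      dsimp only at this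
      rw [if_pos rfl] at this
      exact this.1
    have hvj : ∀ j, j ≠ c → 0 < v j ∧ v j < δ := by
      intro j hj
      have := hv j
      dsimp only at this
      rw [if_neg hj] at this
      exact this
    have hv0 : v ≠ 0 := by
      intro h0
      rw [h0, zero_c] at hvc
      linarith
    refine ⟨hv0, le_antisymm (F_le D i v) ?_⟩
    have hp0 : D.p i ≠ 0 := by
      have := (D.hp i).2
      omega
    have hF1 : 1 ≤ F D i v := by
      calc (1 : ℝ) ≤ v c ^ D.p i := one_le_pow₀ hvc.le
        _ ≤ F D i v := Finset.single_le_sum (f := fun j => v j ^ D.p i)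
            (fun j _ => (D.hp i).1.pow_nonneg _) hc
    set r : ℝ := F D i v ^ (((D.p i : ℕ) : ℝ)⁻¹) with hr
    have hr1 : 1 ≤ r := Real.one_le_rpow hF1 (by positivity)
    have hrp : r ^ D.p i = F D i v := Real.rpow_inv_natCast_pow (F_nonneg D i v) hp0
    have hle : ‖v‖ ≤ r := by
      apply norm_le D (by linarith)
      intro l
      rcases eq_or_ne l i with rfl | hl
      · rw [hrp]
      · have h1 : F D l v ≤ 1 := by
          calc F D l v ≤ ∑ _j ∈ D.S l, δ := by
                unfold F
                refine Finset.sum_le_sum fun j hj => ?_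
                have hjc : j ≠ c := by
                  rintro rfl
                  exact hc' l hl hj
                obtain ⟨h2, h3⟩ := hvj j hjc
                have h4 : v j ^ D.p l ≤ v j := by
                  apply pow_le_of_le_one h2.le (by linarith)
                  have := (D.hp l).2
                  omega
                linarith
            _ = (D.S l).card * δ := by rw [Finset.sum_const, nsmul_eq_mul]
            _ ≤ Fintype.card J * δ := by
                gcongr
                exact Finset.card_le_univ _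
            _ ≤ 1 := by
                rw [hδ, mul_one_div, div_le_one (by positivity)]
                linarith
        exact h1.trans (one_le_pow₀ hr1)
    rw [← hrp]
    exact pow_le_pow_left₀ (norm_nonneg _) hle _

/-- the identities satisfied by a tangent polynomial -/
theorem ident {k : ℕ} {A : ContinuousMultilinearMap ℝ (fun _ : Fin k => Sp D) (Sp D)}
    (ht : Tan fun v => A fun _ => v) {i : ι} {c : J} (hc : c ∈ D.S i)
    (hc' : ∀ l, l ≠ i → c ∉ D.S l) :
    ∑ j ∈ D.S i, X j ^ (D.p i - 1) * pol D A j = 0 := by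
  obtain ⟨s, hs, hbox⟩ := box D hc hc'
  apply funext_set s hs
  intro v hv
  rw [Set.mem_univ_pi] at hv
  obtain ⟨h1, h2⟩ := hbox v hv
  have h3 := orth D (P := fun v => A fun _ => v) ⟨A, fun _ => rfl⟩ ht h1 h2
  rw [map_sum, map_zero, ← h3]
  refine Finset.sum_congr rfl fun j _ => ?_
  rw [map_mul, map_pow, eval_X]
  exact congrArg (fun r => v j ^ (D.p i - 1) * r) (eval_pol D A j v)

omit [Fintype J] [DecidableEq J] in
/-- exponents in a syzygy -/
lemma low {x y : J} (hxy : x ≠ y) {a b : ℕ} {A B : MvPolynomial J ℝ}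
    (h : X x ^ a * A + X y ^ b * B = 0) {α : J →₀ ℕ} (hα : coeff α B ≠ 0) : a ≤ α x := by
  by_contra hcon
  push Not at hcon
  have h1 : coeff (Finsupp.single y b + α) (X y ^ b * B) = coeff α B := by
    rw [X_pow_eq_monomial, coeff_monomial_mul, one_mul]
  have h2 : coeff (Finsupp.single y b + α) (X x ^ a * A) = 0 := by
    rw [X_pow_eq_monomial, coeff_monomial_mul', if_neg]
    intro h3
    have h4 := h3 x
    rw [Finsupp.single_eq_same, Finsupp.add_apply, Finsupp.single_eq_of_ne hxy] at h4
    omega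
  have h3 := congrArg (coeff (Finsupp.single y b + α)) h
  rw [coeff_add, h1, h2, zero_add, coeff_zero] at h3
  exact hα h3

end Y754.PN
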