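import Pool.Agent.Y754.PN.Basic

/-!
# Spaces whose unit ball is an intersection of `ℓ_p` cylinders
-/

set_option autoImplicit false

namespace Y754.PN

open scoped ENNReal

/-- cylinders: supports and even exponents -/
structure Dat (J ι : Type) where
  /-- exponents -/
  p : ι → ℕ
  /-- supports -/
  S : ι → Finset J
  /-- even exponents -/
  hp : ∀ i, Even (p i) ∧ 2 ≤ p i
  /-- every coordinate occurs -/
  cov : ∀ j, ∃ i, j ∈ S i

variable {J ι : Type} [Fintype J] [DecidableEq J] [Fintype ι]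

/-- the underlying vector space -/
def Sp (_D : Dat J ι) : Type := J → ℝ

variable (D : Dat J ι)

instance : AddCommGroup (Sp D) := inferInstanceAs (AddCommGroup (J → ℝ))

instance : Module ℝ (Sp D) := inferInstanceAs (Module ℝ (J → ℝ))

instance : Module.Finite ℝ (Sp D) := inferInstanceAs (Module.Finite ℝ (J → ℝ))

instance fct (i : ι) : Fact ((1 : ℝ≥0∞) ≤ (D.p i : ℝ≥0∞)) :=
  ⟨by
    have := (D.hp i).2
    exact_mod_cast (by omega : 1 ≤ D.p i)⟩

@[simp] lemma add_c (x y : Sp D) (j : J) : (x + y) j = x j + y j := rfl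

@[simp] lemma smul_c (c : ℝ) (x : Sp D) (j : J) : (c • x) j = c * x j := rfl

@[simp] lemma zero_c (j : J) : (0 : Sp D) j = 0 := rfl

/-- the embedding -/
noncomputable def emb : Sp D →ₗ[ℝ] ((i : ι) → PiLp (D.p i : ℝ≥0∞) (fun _ : J => ℝ)) where
  toFun v := fun i => WithLp.toLp (D.p i : ℝ≥0∞) (fun j => if j ∈ D.S i then v j else 0)
  map_add' x y := by
    funext i
    ext j
    simp only [add_c, Pi.add_apply, PiLp.add_apply]
    split_ifs <;> simp
  map_smul' c x := by
    funext i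
    ext j
    simp only [smul_c, Pi.smul_apply, PiLp.smul_apply, RingHom.id_apply, smul_eq_mul]
    split_ifs <;> simp

lemma emb_apply (v : Sp D) (i : ι) (j : J) :
    (emb D v i) j = if j ∈ D.S i then v j else 0 := rfl

lemma emb_inj : Function.Injective (emb D) := by
  intro x y h
  funext j
  obtain ⟨i, hi⟩ := D.cov j
  have h1 := emb_apply D x i j
  have h2 := emb_apply D y i j
  rw [if_pos hi] at h1 h2
  rw [← h1, ← h2, h]

noncomputable instance : NormedAddCommGroup (Sp D) :=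
  NormedAddCommGroup.induced (Sp D) _ (emb D) (emb_inj D)

noncomputable instance : NormedSpace ℝ (Sp D) := NormedSpace.induced ℝ (Sp D) _ (emb D)

/-- the forms -/
def F (i : ι) (v : Sp D) : ℝ := ∑ j ∈ D.S i, v j ^ D.p i

lemma F_nonneg (i : ι) (v : Sp D) : 0 ≤ F D i v :=
  Finset.sum_nonneg fun _ _ => (D.hp i).1.pow_nonneg _

lemma comp_pow (i : ι) (v : Sp D) : ‖emb D v i‖ ^ D.p i = F D i v := by
  have hp0 : D.p i ≠ 0 := by
    have := (D.hp i).2
    omega
  have h1 : (0 : ℝ) < ((D.p i : ℝ≥0∞)).toReal := by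
    rw [ENNReal.toReal_natCast]
    exact_mod_cast Nat.pos_of_ne_zero hp0
  rw [PiLp.norm_eq_sum h1, ENNReal.toReal_natCast, one_div, Real.rpow_inv_natCast_pow _ hp0]
  · unfold F
    rw [← Finset.sum_filter_add_sum_filter_not Finset.univ (fun j => j ∈ D.S i)]
    rw [Finset.sum_eq_zero (s := Finset.univ.filter fun j => j ∉ D.S i), add_zero]
    · rw [Finset.filter_mem_eq_inter, Finset.univ_inter]
      refine Finset.sum_congr rfl fun j hj => ?_
      rw [emb_apply, if_pos hj, Real.rpow_natCast, Real.norm_eq_abs, (D.hp i).1.pow_abs]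
    · intro j hj
      rw [Finset.mem_filter] at hj
      rw [emb_apply, if_neg hj.2, norm_zero, Real.rpow_natCast, zero_pow hp0]
  · exact Finset.sum_nonneg fun _ _ => by positivity

lemma F_le (i : ι) (v : Sp D) : F D i v ≤ ‖v‖ ^ D.p i := by
  rw [← comp_pow]
  exact pow_le_pow_left₀ (norm_nonneg _) (norm_le_pi_norm (emb D v) i) _

lemma norm_le {v : Sp D} {c : ℝ} (hc : 0 ≤ c) (h : ∀ i, F D i v ≤ c ^ D.p i) : ‖v‖ ≤ c := by
  change ‖emb D v‖ ≤ c
  rw [pi_norm_le_iff_of_nonneg hc]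
  intro i
  have h1 := h i
  rw [← comp_pow] at h1
  have hp0 : D.p i ≠ 0 := by
    have := (D.hp i).2
    omega
  exact (pow_le_pow_iff_left₀ (norm_nonneg _) hc hp0).1 h1

/-- coordinates -/
noncomputable def co (j : J) : Sp D →L[ℝ] ℝ :=
  LinearMap.toContinuousLinearMap
    ({ toFun := fun x => x j, map_add' := fun _ _ => rfl, map_smul' := fun _ _ => rfl } :
      Sp D →ₗ[ℝ] ℝ)

@[simp] lemma co_apply (j : J) (x : Sp D) : co D j x = x j := rfl

/-- basis vectors -/
def be (i : J) : Sp D := fun j => if j = i then 1 else 0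

lemma decomp (v : Sp D) : v = ∑ j, v j • be D j := by
  funext i
  have : (∑ j, v j • be D j) i = ∑ j, (v j • be D j) i := by
    have := map_sum (co D i) (fun j => v j • be D j) Finset.univ
    exact this
  rw [this]
  simp [be]

/-- second order expansion of a power -/
lemma pow_expand (x w : ℝ) (p : ℕ) : ∃ R : ℝ → ℝ, Continuous R ∧
    ∀ t : ℝ, (x + t * w) ^ (p + 1) = x ^ (p + 1) + (p + 1) * x ^ p * w * t + t ^ 2 * R t := by
  induction p with
  | zero => exact ⟨fun _ => 0, continuous_const, fun t => by push_cast; ring⟩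
  | succ p ih =>
    obtain ⟨R, hR, h⟩ := ih
    refine ⟨fun t => (p + 1) * x ^ p * w * w + R t * (x + t * w), by fun_prop, fun t => ?_⟩
    rw [pow_succ (x + t * w), h]
    push_cast
    ring

/-- a vector orthogonal to all the gradients is killed by the supporting functionals -/
theorem tan_of {v W : Sp D} (h : ∀ i, ∑ j ∈ D.S i, v j ^ (D.p i - 1) * W j = 0)
    {f : Sp D →L[ℝ] ℝ} (hv : ‖v‖ = 1) (hf : ‖f‖ = 1) (hfv : f v = 1) : f W = 0 := by
  -- the forms along the line
  have h1 : ∀ i, ∃ C : ℝ, 0 ≤ C ∧ ∀ t : ℝ, |t| ≤ 1 → F D i (v + t • W) ≤ 1 + C * t ^ 2 := by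
    intro i
    obtain ⟨r, hr⟩ : ∃ r, D.p i = r + 1 := ⟨D.p i - 1, by have := (D.hp i).2; omega⟩
    choose R hRc hR using fun j : J => pow_expand (v j) (W j) r
    have hcont : Continuous fun t : ℝ => ∑ j ∈ D.S i, R j t :=
      continuous_finsetSum _ fun j _ => hRc j
    obtain ⟨C, hC⟩ := (isCompact_Icc (a := (-1 : ℝ)) (b := 1)).bddAbove_image
      (f := fun t : ℝ => ∑ j ∈ D.S i, R j t) hcont.continuousOn
    refine ⟨max C 0, le_max_right _ _, fun t ht => ?_⟩
    have h2 : ∑ j ∈ D.S i, R j t ≤ max C 0 :=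
      (hC ⟨t, abs_le.1 ht, rfl⟩).trans (le_max_left _ _)
    have h3 : F D i (v + t • W) = F D i v + (r + 1) * t * (∑ j ∈ D.S i, v j ^ r * W j) +
        t ^ 2 * ∑ j ∈ D.S i, R j t := by
      unfold F
      rw [Finset.mul_sum, Finset.mul_sum, ← Finset.sum_add_distrib, ← Finset.sum_add_distrib]
      refine Finset.sum_congr rfl fun j _ => ?_
      rw [add_c, smul_c, hr, hR]
      ring
    have h4 := h i
    rw [hr, Nat.add_sub_cancel] at h4
    rw [h3, h4, mul_zero, add_zero]
    have h5 := F_le D i v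
    rw [hv, one_pow] at h5
    have h6 : t ^ 2 * ∑ j ∈ D.S i, R j t ≤ t ^ 2 * max C 0 :=
      mul_le_mul_of_nonneg_left h2 (sq_nonneg t)
    linarith
  choose C hC0 hC using h1
  set K : ℝ := ∑ i, C i with hK
  have hK0 : 0 ≤ K := Finset.sum_nonneg fun i _ => hC0 i
  have h2 : ∀ t : ℝ, |t| ≤ 1 → t * f W ≤ K * t ^ 2 := by
    intro t ht
    have h3 : ‖v + t • W‖ ≤ 1 + K * t ^ 2 := by
      apply norm_le D (by positivity)
      intro i
      have h4 : 1 + K * t ^ 2 ≤ (1 + K * t ^ 2) ^ D.p i := by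
        apply le_self_pow₀
        · nlinarith [sq_nonneg t, mul_nonneg hK0 (sq_nonneg t)]
        · have := (D.hp i).2
          omega
      refine ((hC i t ht).trans ?_).trans h4
      have h5 : C i ≤ K := Finset.single_le_sum (fun i _ => hC0 i) (Finset.mem_univ i)
      nlinarith [sq_nonneg t]
    have h4 := f.le_opNorm (v + t • W)
    rw [hf, one_mul, map_add, map_smul, hfv, smul_eq_mul, Real.norm_eq_abs] at h4
    have h5 := (le_abs_self _).trans (h4.trans h3)
    linarith
  by_contra hcon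
  set s : ℝ := f W / (K + |f W| + 1) with hs
  have hpos : 0 < |f W| := abs_pos.2 hcon
  have hden : 0 < K + |f W| + 1 := by positivity
  have hs1 : |s| ≤ 1 := by
    rw [hs, abs_div, abs_of_pos hden, div_le_one hden]
    linarith
  have h3 := h2 s hs1
  have h4 : s * f W = (f W) ^ 2 / (K + |f W| + 1) := by
    rw [hs]
    ring
  have h5 : K * s ^ 2 = K * (f W) ^ 2 / (K + |f W| + 1) ^ 2 := by
    rw [hs, div_pow]
    ring
  rw [h4, h5, div_le_div_iff₀ hden (by positivity)] at h3
  have h6 : 0 < (f W) ^ 2 := by positivity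
  have h7 : (f W) ^ 2 * ((K + |f W| + 1) * (|f W| + 1)) ≤ 0 := by nlinarith
  have h8 : 0 < (f W) ^ 2 * ((K + |f W| + 1) * (|f W| + 1)) := by positivity
  linarith

/-- Young's inequality with integer exponents -/
lemma young {a b : ℝ} (ha : 0 ≤ a) (hb : 0 ≤ b) (p : ℕ) :
    (p + 1) * (a ^ p * b) ≤ p * a ^ (p + 1) + b ^ (p + 1) := by
  rcases ha.eq_or_lt with h | h
  · rw [← h]
    rcases Nat.eq_zero_or_pos p with h1 | h1
    · subst h1
      simp
    · rw [zero_pow h1.ne', zero_pow (Nat.succ_ne_zero _)]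
      simp only [zero_mul, mul_zero, zero_add]
      positivity
  · have h1 : (-2 : ℝ) ≤ (b - a) / a := by
      rw [le_div_iff₀ h]
      linarith
    have h2 := one_add_mul_le_pow h1 (p + 1)
    have h3 : 1 + (b - a) / a = b / a := by
      field_simp
      ring
    rw [h3, div_pow] at h2
    rw [le_div_iff₀ (by positivity)] at h2
    have h4 : (1 + ((p + 1 : ℕ) : ℝ) * ((b - a) / a)) * a ^ (p + 1) =
        (p + 1) * (a ^ p * b) - p * a ^ (p + 1) := by
      rw [pow_succ]
      push_cast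
      field_simp
      ring
    rw [h4] at h2
    linarith

/-- the gradient functional -/
noncomputable def gr (i : ι) (v : Sp D) : Sp D →L[ℝ] ℝ :=
  ∑ j ∈ D.S i, (v j ^ (D.p i - 1)) • co D j

lemma gr_apply (i : ι) (v u : Sp D) :
    gr D i v u = ∑ j ∈ D.S i, v j ^ (D.p i - 1) * u j := by
  unfold gr
  simp [ContinuousLinearMap.sum_apply]

lemma gr_self (i : ι) (v : Sp D) : gr D i v v = F D i v := by
  rw [gr_apply]
  unfold F
  refine Finset.sum_congr rfl fun j _ => ?_
  rw [← pow_succ]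
  congr 1
  have := (D.hp i).2
  omega

lemma gr_norm {i : ι} {v : Sp D} (hv : ‖v‖ = 1) (hF : F D i v = 1) : ‖gr D i v‖ = 1 := by
  obtain ⟨r, hr⟩ : ∃ r, D.p i = r + 1 := ⟨D.p i - 1, by have := (D.hp i).2; omega⟩
  apply le_antisymm
  · apply ContinuousLinearMap.opNorm_le_of_unit_norm zero_le_one
    intro u hu
    rw [gr_apply, Real.norm_eq_abs, hr, Nat.add_sub_cancel]
    have hr0 : (0 : ℝ) < r + 1 := by positivity
    have h1 : |∑ j ∈ D.S i, v j ^ r * u j| ≤ ∑ j ∈ D.S i, |v j| ^ r * |u j| := by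
      refine (Finset.abs_sum_le_sum_abs _ _).trans (le_of_eq ?_)
      refine Finset.sum_congr rfl fun j _ => ?_
      rw [abs_mul, abs_pow]
    have h2 : (r + 1) * ∑ j ∈ D.S i, |v j| ^ r * |u j| ≤ r * F D i v + F D i u := by
      unfold F
      rw [Finset.mul_sum, Finset.mul_sum, ← Finset.sum_add_distrib]
      refine Finset.sum_le_sum fun j _ => ?_
      have h3 := young (abs_nonneg (v j)) (abs_nonneg (u j)) r
      rw [← hr, (D.hp i).1.pow_abs, (D.hp i).1.pow_abs] at h3
      exact h3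
    have h3 := F_le D i u
    rw [hu, one_pow] at h3
    rw [hF] at h2
    have h4 : (r + 1) * ∑ j ∈ D.S i, |v j| ^ r * |u j| ≤ (r + 1) * 1 := by linarith
    exact h1.trans (le_of_mul_le_mul_left h4 hr0)
  · have h1 := (gr D i v).le_opNorm v
    rw [gr_self, hF, hv, mul_one, norm_one] at h1
    exact h1

/-- a tangent polynomial is orthogonal to the gradients on the regions -/
theorem orth {k : ℕ} {P : Sp D → Sp D} (hP : HV k P) (ht : Tan P) {i : ι} {v : Sp D}
    (hv : v ≠ 0) (hF : F D i v = ‖v‖ ^ D.p i) :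
    ∑ j ∈ D.S i, v j ^ (D.p i - 1) * P v j = 0 := by
  have hn : 0 < ‖v‖ := norm_pos_iff.2 hv
  set c : ℝ := ‖v‖⁻¹ with hc
  have hc0 : 0 < c := inv_pos.2 hn
  have h1 : ‖c • v‖ = 1 := by
    rw [norm_smul, hc, norm_inv, norm_norm, inv_mul_cancel₀ hn.ne']
  have h2 : F D i (c • v) = 1 := by
    have : F D i (c • v) = c ^ D.p i * F D i v := by
      unfold F
      rw [Finset.mul_sum]
      refine Finset.sum_congr rfl fun j _ => ?_
      rw [smul_c, mul_pow]
    rw [this, hF, ← mul_pow, hc, inv_mul_cancel₀ hn.ne', one_pow]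
  have h3 := ht (c • v) (gr D i (c • v)) h1 (gr_norm D h1 h2) (by rw [gr_self, h2])
  rw [gr_apply, hP.hom] at h3
  have h4 : ∑ j ∈ D.S i, (c • v) j ^ (D.p i - 1) * (c ^ k • P v) j =
      c ^ (D.p i - 1) * c ^ k * ∑ j ∈ D.S i, v j ^ (D.p i - 1) * P v j := by
    rw [Finset.mul_sum]
    refine Finset.sum_congr rfl fun j _ => ?_
    rw [smul_c, smul_c, mul_pow]
    ring
  rw [h4] at h3
  rcases mul_eq_zero.1 h3 with h5 | h5
  · exfalso
    have : 0 < c ^ (D.p i - 1) * c ^ k := by positivity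
    linarith
  · exact h5

end Y754.PN
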